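import Pool.Agent.H44.EHN.Stmts

/-!
Row EXB of board ehn: a product of two powers close to one.
-/

set_option autoImplicit false

namespace EHN

theorem exb_aux (G K : ℝ) (n : ℕ) (W : ℝ) (hG : 0 < G) (hK : 0 ≤ K) (hW : 0 < W)
    (h : 8 * (n : ℝ) * (W * K) ≤ G) : 1 - 1 / (8 * W) ≤ (G / (G + K)) ^ n := by
  have hGK : 0 < G + K := by positivity
  have h1 : (-2 : ℝ) ≤ -(K / (G + K)) := by
    have : K / (G + K) ≤ 1 := by rw [div_le_one hGK]; linarith
    linarith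
  have h2 := one_add_mul_le_pow h1 n
  have h3 : 1 + -(K / (G + K)) = G / (G + K) := by field_simp; ring
  rw [h3] at h2
  refine le_trans ?_ h2
  have h4 : (n : ℝ) * (K / (G + K)) ≤ 1 / (8 * W) := by
    rw [le_div_iff₀ (by positivity), mul_div_assoc', div_mul_eq_mul_div, div_le_one hGK]
    nlinarith [h, hK]
  linarith

theorem exb_thm : EXBStmt := by
  intro V W L Φ F Y H' hV hVW hF hY h1 h2
  have hW : 1 ≤ W := le_trans hV hVW
  have hVr : (1 : ℝ) ≤ V := by exact_mod_cast hV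
  have hVWr : (V : ℝ) ≤ W := by exact_mod_cast hVW
  have hWr : (1 : ℝ) ≤ W := by exact_mod_cast hW
  have hFr : (1 : ℝ) ≤ F := by exact_mod_cast hF
  have hYr : (1 : ℝ) ≤ Y := by exact_mod_cast hY
  have hHr : (0 : ℝ) ≤ H' := Nat.cast_nonneg _
  have h1r : 8 * (L : ℝ) * W ≤ F := by exact_mod_cast h1
  have h2r : 8 * (Φ : ℝ) * (W * H') ≤ Y := by exact_mod_cast h2
  have e1 := exb_aux F 1 L W (by linarith) (by norm_num) (by linarith) (by linarith)
  have e2 := exb_aux Y H' Φ W (by linarith) hHr (by linarith) h2r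
  set p := ((F : ℝ) / (F + 1)) ^ L with hp
  set r := ((Y : ℝ) / (Y + H')) ^ Φ with hr
  have hpe : p * ((F : ℝ) + 1) ^ L = (F : ℝ) ^ L := by
    rw [hp, div_pow, div_mul_cancel₀]
    positivity
  have hre : r * ((Y : ℝ) + H') ^ Φ = (Y : ℝ) ^ Φ := by
    rw [hr, div_pow, div_mul_cancel₀]
    positivity
  have hu : (1 : ℝ) / (8 * W) ≤ 1 / 8 := by
    apply div_le_div_of_nonneg_left <;> nlinarith
  have hu0 : (0 : ℝ) < 1 / (8 * W) := by positivity
  have hVu : (V : ℝ) * (1 / (8 * W)) ≤ 1 / 8 := by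
    rw [mul_one_div, div_le_div_iff₀ (by positivity) (by norm_num)]
    linarith
  set u := (1 : ℝ) / (8 * W) with hudef
  have hpr : (1 - u) * (1 - u) ≤ p * r := by
    apply mul_le_mul e1 e2 (by linarith)
    exact le_trans (by linarith) e1
  have hkey : (V : ℝ) < (V + 1) * (p * r) := by
    have h5 : (V + 1 : ℝ) * ((1 - u) * (1 - u)) ≤ (V + 1) * (p * r) :=
      mul_le_mul_of_nonneg_left hpr (by linarith)
    refine lt_of_lt_of_le ?_ h5
    nlinarith [hVu, hu, hu0, mul_nonneg (by linarith : (0 : ℝ) ≤ V) (sq_nonneg u), sq_nonneg u]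
  have hpos : (0 : ℝ) < ((F : ℝ) + 1) ^ L * ((Y : ℝ) + H') ^ Φ := by positivity
  have hfin : (V : ℝ) * ((F : ℝ) + 1) ^ L * ((Y : ℝ) + H') ^ Φ
      < (V + 1) * (F : ℝ) ^ L * (Y : ℝ) ^ Φ := by
    calc (V : ℝ) * ((F : ℝ) + 1) ^ L * ((Y : ℝ) + H') ^ Φ
        = V * (((F : ℝ) + 1) ^ L * ((Y : ℝ) + H') ^ Φ) := by ring
      _ < ((V + 1) * (p * r)) * (((F : ℝ) + 1) ^ L * ((Y : ℝ) + H') ^ Φ) :=
          mul_lt_mul_of_pos_right hkey hpos
      _ = (V + 1) * (p * ((F : ℝ) + 1) ^ L) * (r * ((Y : ℝ) + H') ^ Φ) := by ring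
      _ = (V + 1) * (F : ℝ) ^ L * (Y : ℝ) ^ Φ := by rw [hpe, hre]
  exact_mod_cast hfin

end EHN
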